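import Mathlib
import Pool.Agent.Lib.MP_024b77_al.Final

/-!
# The limiting densities of the classical zeros of the character tables of symmetric groups

The densities `z_I(S_n) ≤ z_II(S_n)` of the two classical types of zeros satisfy
`z_II(S_n) ≤ C / log n`; hence both limits exist and are equal to `0`.
-/

set_option autoImplicit false

namespace Pool.Agent.Results.MP_024b77_al.ClassicalZeros

open MP024b77 Filter Topology

/-- `z_I(S_n) ≤ z_II(S_n) ≤ C / log n`, and both limits are `0`. -/
theorem result :
    (∃ C : ℝ, 0 < C ∧ ∀ n : ℕ, 2 ≤ n → zI n ≤ zII n ∧ zII n ≤ C / Real.log n) ∧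
    Tendsto zI atTop (𝓝 0) ∧ Tendsto zII atTop (𝓝 0) := by
  obtain ⟨C, hC, h⟩ := zII_le_log
  have hlim : Tendsto (fun n : ℕ => C / Real.log n) atTop (𝓝 0) :=
    Tendsto.div_atTop tendsto_const_nhds
      (Real.tendsto_log_atTop.comp tendsto_natCast_atTop_atTop)
  have h2 : Tendsto zII atTop (𝓝 0) := by
    refine tendsto_of_tendsto_of_tendsto_of_le_of_le' tendsto_const_nhds hlim ?_ ?_
    · exact Eventually.of_forall zII_nonneg
    · filter_upwards [eventually_ge_atTop 2] with n hn using h n hn
  refine ⟨⟨C, hC, fun n hn => ⟨zI_le_zII (by omega), h n hn⟩⟩, ?_, h2⟩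
  refine tendsto_of_tendsto_of_tendsto_of_le_of_le' tendsto_const_nhds h2 ?_ ?_
  · exact Eventually.of_forall zI_nonneg
  · filter_upwards [eventually_ge_atTop 1] with n hn using zI_le_zII hn

end Pool.Agent.Results.MP_024b77_al.ClassicalZeros
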